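import Pool.Agent.KS6_36.LC.B

set_option autoImplicit false

namespace Pool.Agent.Results.MP_22cd7c_nt.AffineSpaces

/-- For all `ε, κ > 0` and every dimension `d`, if `N` is large, then every `A ⊆ {1, ..., N}` with at
least `ε N` elements contains `3 ^ d` distinct elements `f x`, indexed by the points `x` of the affine
space of dimension `d` over the field with three elements, such that on every line `{u, v, w}`
(`u + w = 2 v`) the three pairwise least common multiples agree; all these elements lie within a factor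
`1 + κ` of each other. -/
theorem result (ε κ : ℝ) (hε : 0 < ε) (hκ : 0 < κ) (d : ℕ) : ∃ N₀ : ℕ, ∀ N : ℕ, N₀ ≤ N →
    ∀ A : Finset ℕ, A ⊆ Finset.Icc 1 N → ε * (N : ℝ) ≤ (A.card : ℝ) →
      ∃ f : (Fin d → Fin 3) → ℕ, Function.Injective f ∧ (∀ x, f x ∈ A) ∧
        (∀ u v w, u + w = v + v →
          Nat.lcm (f u) (f v) = Nat.lcm (f v) (f w) ∧ Nat.lcm (f u) (f v) = Nat.lcm (f u) (f w)) ∧
        ∀ u v, (f u : ℝ) ≤ (1 + κ) * f v :=
  Pool.Agent.KS6_36.LC.main ε κ hε hκ d

end Pool.Agent.Results.MP_22cd7c_nt.AffineSpaces
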